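import Pool.Agent.helper13.U4.SpecY

set_option autoImplicit false

/-!
# U4: row CEL, coordinates of the cells
-/

namespace Pool.Agent.U4

open Pool.Agent.UL

theorem CEL_aux (v : ℕ) (hv : v % 2 = 1) (A B : ℤ) (h : (v : ℤ) * A = 2 * B) :
    ∃ k : ℤ, B = v * k ∧ A = 2 * k := by
  obtain ⟨w, hw⟩ : ∃ w : ℤ, (v : ℤ) = 2 * w + 1 := ⟨(v : ℤ) / 2, by omega⟩
  have h1 : A = 2 * (B - w * A) := by
    rw [hw] at h
    linear_combination h
  refine ⟨B - w * A, ?_, h1⟩
  have h2 : 2 * B = 2 * ((v : ℤ) * (B - w * A)) := by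
    calc 2 * B = (v : ℤ) * A := h.symm
      _ = (v : ℤ) * (2 * (B - w * A)) := by rw [← h1]
      _ = 2 * ((v : ℤ) * (B - w * A)) := by ring
  linarith

/-- CEL -/
theorem CEL : CEL_stmt := by
  intro v hv
  have hv0 : (0 : ℤ) < v := by omega
  refine ⟨?_, ?_⟩
  · intro t r t' r' ht ht' h
    obtain ⟨k, hk1, hk2⟩ := CEL_aux v hv ((r : ℤ) - r') ((t' : ℤ) - t) (by linear_combination h)
    have h1 : k < 1 := by
      by_contra hc
      have : (v : ℤ) * 1 ≤ v * k := mul_le_mul_of_nonneg_left (by omega) hv0.le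
      omega
    have h2 : -1 < k := by
      by_contra hc
      have : (v : ℤ) * k ≤ v * (-1) := mul_le_mul_of_nonneg_left (by omega) hv0.le
      omega
    have h3 : k = 0 := by omega
    rw [h3] at hk1 hk2
    omega
  · intro t r t' r' ρ σ ht ht' hσ h
    obtain ⟨k, hk1, hk2⟩ := CEL_aux v hv ((r : ℤ) + r' - ρ) ((σ : ℤ) - t - t')
      (by linear_combination h)
    have h1 : k < 1 := by
      by_contra hc
      have : (v : ℤ) * 1 ≤ v * k := mul_le_mul_of_nonneg_left (by omega) hv0.le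
      omega
    have h2 : -2 < k := by
      by_contra hc
      have : (v : ℤ) * k ≤ v * (-2) := mul_le_mul_of_nonneg_left (by omega) hv0.le
      omega
    have h3 : k = 0 ∨ k = -1 := by omega
    rcases h3 with h3 | h3
    · left
      rw [h3] at hk1 hk2
      omega
    · right
      rw [h3] at hk1 hk2
      omega

end Pool.Agent.U4
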