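import Pool.Agent.helper13.U4.Spec

set_option autoImplicit false

/-!
# U4: row LOW, the low rows of `x`
-/

namespace Pool.Agent.U4

open Pool.Agent.UL

theorem LOW_log (k : ℕ) : Nat.log 2 (2 ^ k) = k := Nat.log_pow (by norm_num) k

/-- the row at the time `h` -/
theorem LOW_blk (h1 : GPW_stmt) (k h : ℕ) (hh : h = 2 ^ k) (r : ℕ) (hr : r + 1 < 2 * h) :
    (blk h r = true ↔ r = 0) := by
  obtain ⟨_, _, _, _, hg0, _, _⟩ := h1
  unfold blk
  rw [hh, LOW_log, ← hh, Nat.sub_self]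
  have e1 : decide (2 * h ≤ r + 1) = false := by
    rw [decide_eq_false_iff_not]
    omega
  rw [e1, Bool.false_and, Bool.or_false]
  exact hg0 r

theorem LOW_mod (k q h v : ℕ) (P : Par k q h v) : v % h = h - 1 ∧ 1 ≤ h ∧ h ≤ v := by
  have hh : 1 ≤ h := by
    rw [P.hh]
    exact Nat.one_le_two_pow
  have hv := P.hv
  have e1 : v = (h - 1) + h * (2 * q) := by
    have e2 : 2 * h * q = h * (2 * q) := by ring
    rw [e2] at hv
    omega
  have hq := P.hq
  refine ⟨?_, hh, ?_⟩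
  · rw [e1, Nat.add_mul_mod_self_left]
    exact Nat.mod_eq_of_lt (by omega)
  · have e3 : h * 1 ≤ h * (2 * q) := Nat.mul_le_mul_left _ (by omega)
    omega

theorem LOW_p0 (r : ℕ) : (p0 (r + 2) = true ↔ r % 4 ≠ 3) := by
  unfold p0
  rw [decide_eq_true_iff]
  omega

/-- LOW -/
theorem LOW (h1 : GPW_stmt) (h2 : LB0_stmt) (h3 : LB1_stmt) : LOW_stmt := by
  intro k q h v x P hx
  obtain ⟨hmod, hh1, hhv⟩ := LOW_mod k q h v P
  have hk1 : 1 ≤ k := by
    have := P.hk
    omega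
  have key : ∀ ρ, 1 ≤ ρ → ρ ≤ 2 * h → ∀ r ≤ ρ, x 0 r = p0 r := by
    intro ρ hρ
    induction ρ, hρ using Nat.le_induction with
    | base =>
      intro _ r hr
      have e1 : r = 0 ∨ r = 1 := by omega
      rcases e1 with e1 | e1
      · rw [e1, hx.z0]
        rfl
      · rw [e1, hx.z1]
        rfl
    | succ ρ hρ ih =>
      intro hρ2 r hr
      have ih' := ih (by omega)
      rcases Nat.lt_or_ge r (ρ + 1) with h4 | h4
      · exact ih' r (by omega)
      have e1 : r = (ρ - 1) + 2 := by omega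
      rw [e1]
      have e2 := h2 v ρ x hx ih'
      have e3 : ∀ r' ≤ ρ - 1, (x h r' = true ↔ r' = 0) := by
        intro r' hr'
        rw [e2 h hh1 hhv r' (by omega)]
        exact LOW_blk h1 k h P.hh r' (by omega)
      have e4 := h3 k h v (ρ - 1) x P.hk P.hh hhv hx (by omega) e3 v hhv le_rfl (ρ - 1) le_rfl
      rw [← hx.w, e4, hmod, P.hh, Bool.eq_iff_iff, h1.2.1 k hk1, LOW_p0]
      have e5 := P.hh
      constructor
      · rintro ⟨e6, _⟩
        exact e6
      · intro e6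
        exact ⟨e6, by omega⟩
  have hA : ∀ r ≤ 2 * h, x 0 r = p0 r := key (2 * h) (by omega) le_rfl
  have hB := h2 v (2 * h) x hx hA
  refine ⟨hA, hB, ?_⟩
  intro t ht htv r hr
  refine h3 k h v (2 * h - 2) x P.hk P.hh hhv hx (by omega) ?_ t ht htv r (by omega)
  intro r' hr'
  rw [hB h hh1 hhv r' (by omega)]
  exact LOW_blk h1 k h P.hh r' (by omega)

end Pool.Agent.U4
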